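import Mathlib

/-!
The least size of a family of 4-sets without a `(2,2)`-acceptable Hamilton path is smaller than
`C(n-2, 2)` for `n = 6` and for `n = 7`.

* `n = 6`: the `5 < 6 = C(4, 2)` four-element subsets of a 5-element set block all Hamilton paths.
* `n = 7`: the `9 < 10 = C(5, 2)` four-element sets meeting each of two disjoint 3-element sets
  in exactly two elements block all Hamilton paths.
-/

namespace Pool.Agent.Results.MP_716318_co.SmallBlockers

open Finset

/-- The ordering `v 0, v 1, …, v (n-1)` of the vertex set `Fin n` (a Hamilton path of `K_n` with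
the edges `{v i, v (i+1)}`, `i + 1 < n`) is `(2,2)`-acceptable with respect to `F`: no two disjoint
edges of the path have their union in `F`. -/
def Acceptable {n : ℕ} (F : Finset (Finset (Fin n))) (v : Equiv.Perm (Fin n)) : Prop :=
  ∀ (i j : ℕ) (hi : i + 1 < n) (hj : j + 1 < n),
    Disjoint ({v ⟨i, by omega⟩, v ⟨i + 1, hi⟩} : Finset (Fin n))
      {v ⟨j, by omega⟩, v ⟨j + 1, hj⟩} →
    ({v ⟨i, by omega⟩, v ⟨i + 1, hi⟩} ∪ {v ⟨j, by omega⟩, v ⟨j + 1, hj⟩} : Finset (Fin n)) ∉ F

/-- All 4-element subsets of `Fin 6` avoiding `5`. -/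
def F6 : Finset (Finset (Fin 6)) := (univ.erase 5).powersetCard 4

/-- All 4-element subsets of `Fin 7` with two elements in `{0, 1, 2}` and two in `{3, 4, 5}`. -/
def F7 : Finset (Finset (Fin 7)) :=
  (univ.powersetCard 4).filter fun T => (T ∩ {0, 1, 2}).card = 2 ∧ (T ∩ {3, 4, 5}).card = 2

lemma card_F6 : F6.card = 5 := by decide +kernel

lemma card_F7 : F7.card = 9 := by decide +kernel

lemma disj {n : ℕ} (v : Equiv.Perm (Fin n)) (i j : ℕ) (hi : i + 1 < n) (hj : j + 1 < n)
    (hij : i + 2 ≤ j) :
    Disjoint ({v ⟨i, by omega⟩, v ⟨i + 1, hi⟩} : Finset (Fin n))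
      {v ⟨j, by omega⟩, v ⟨j + 1, hj⟩} := by
  rw [Finset.disjoint_left]
  intro x hx hy
  simp only [Finset.mem_insert, Finset.mem_singleton] at hx hy
  rcases hx with rfl | rfl <;> rcases hy with h | h <;>
    · have := v.injective h
      simp only [Fin.mk.injEq] at this
      omega

lemma block6 (v : Equiv.Perm (Fin 6)) : ¬ Acceptable F6 v := by
  intro h
  -- the position of the vertex `5`
  have key : ∀ p : Fin 6, ∃ i j : Fin 5, i.val + 2 ≤ j.val ∧ p.val ≠ i.val ∧ p.val ≠ i.val + 1 ∧
      p.val ≠ j.val ∧ p.val ≠ j.val + 1 := by decide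
  obtain ⟨i, j, hij, h1, h2, h3, h4⟩ := key (v.symm 5)
  have hd := disj v i.val j.val (by omega) (by omega) hij
  refine h i.val j.val (by omega) (by omega) hd ?_
  rw [F6, Finset.mem_powersetCard]
  constructor
  · intro x hx
    rw [Finset.mem_erase]
    refine ⟨?_, Finset.mem_univ _⟩
    rintro rfl
    simp only [Finset.mem_union, Finset.mem_insert, Finset.mem_singleton] at hx
    rcases hx with (hx | hx) | (hx | hx) <;>
      · rw [← Equiv.symm_apply_eq] at hx
        have := congrArg Fin.val hx
        simp only at this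
        omega
  · rw [Finset.card_union_of_disjoint hd, Finset.card_pair, Finset.card_pair]
    · intro h; have := v.injective h; simp at this
    · intro h; have := v.injective h; simp at this

/-- The colour of a vertex of `Fin 7`. -/
def col (x : Fin 7) : Fin 3 := if x.val < 3 then 0 else if x.val < 6 then 1 else 2

set_option maxRecDepth 100000 in
lemma words : ∀ c : Fin 7 → Fin 3, (univ.filter fun i => c i = 0).card = 3 →
    (univ.filter fun i => c i = 1).card = 3 →
    ∃ i j : Fin 6, i.val + 2 ≤ j.val ∧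
      (({i.castSucc, i.succ, j.castSucc, j.succ} : Finset (Fin 7)).filter
        fun k => c k = 0).card = 2 ∧
      (({i.castSucc, i.succ, j.castSucc, j.succ} : Finset (Fin 7)).filter
        fun k => c k = 1).card = 2 := by
  decide +kernel

lemma block7 (v : Equiv.Perm (Fin 7)) : ¬ Acceptable F7 v := by
  intro h
  have hc : ∀ a : Fin 3, (univ.filter fun i => col (v i) = a).card =
      (univ.filter fun x => col x = a).card := by
    intro a
    have : (univ.filter fun x => col x = a) =
        (univ.filter fun i => col (v i) = a).map v.toEmbedding := by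
      ext x
      simp only [Finset.mem_filter, Finset.mem_univ, true_and, Finset.mem_map,
        Equiv.coe_toEmbedding]
      constructor
      · intro hx
        exact ⟨v.symm x, by simpa using hx, by simp⟩
      · rintro ⟨y, hy, rfl⟩
        exact hy
    rw [this, Finset.card_map]
  obtain ⟨i, j, hij, h0, h1⟩ := words (fun i => col (v i))
    ((hc 0).trans (by decide)) ((hc 1).trans (by decide))
  have hd := disj v i.val j.val (by omega) (by omega) hij
  refine h i.val j.val (by omega) (by omega) hd ?_
  -- the union is the image of the four positions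
  have hU : ({v ⟨i.val, by omega⟩, v ⟨i.val + 1, by omega⟩} ∪
      {v ⟨j.val, by omega⟩, v ⟨j.val + 1, by omega⟩} : Finset (Fin 7)) =
      ({i.castSucc, i.succ, j.castSucc, j.succ} : Finset (Fin 7)).map v.toEmbedding := by
    ext x
    simp only [Finset.mem_union, Finset.mem_insert, Finset.mem_singleton, Finset.mem_map,
      Equiv.coe_toEmbedding, exists_eq_or_imp, exists_eq_left]
    constructor
    · rintro ((h | h) | (h | h))
      · exact Or.inl h.symm
      · exact Or.inr (Or.inl h.symm)
      · exact Or.inr (Or.inr (Or.inl h.symm))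
      · exact Or.inr (Or.inr (Or.inr h.symm))
    · rintro (h | h | h | h)
      · exact Or.inl (Or.inl h.symm)
      · exact Or.inl (Or.inr h.symm)
      · exact Or.inr (Or.inl h.symm)
      · exact Or.inr (Or.inr h.symm)
  have hA : ∀ x : Fin 7, x ∈ ({0, 1, 2} : Finset (Fin 7)) ↔ col x = 0 := by decide
  have hB : ∀ x : Fin 7, x ∈ ({3, 4, 5} : Finset (Fin 7)) ↔ col x = 1 := by decide
  rw [F7, Finset.mem_filter, Finset.mem_powersetCard]
  refine ⟨⟨Finset.subset_univ _, ?_⟩, ?_, ?_⟩
  · rw [Finset.card_union_of_disjoint hd, Finset.card_pair, Finset.card_pair]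
    · intro h; have := v.injective h; simp at this
    · intro h; have := v.injective h; simp at this
  · have e : Finset.map v.toEmbedding {i.castSucc, i.succ, j.castSucc, j.succ} ∩ {0, 1, 2} =
        (({i.castSucc, i.succ, j.castSucc, j.succ} : Finset (Fin 7)).filter
          fun k => col (v k) = 0).map v.toEmbedding := by
      ext x
      simp only [Finset.mem_inter, hA, Finset.mem_map, Finset.mem_filter, Equiv.coe_toEmbedding]
      constructor
      · rintro ⟨⟨y, hy, rfl⟩, hx⟩
        exact ⟨y, ⟨hy, hx⟩, rfl⟩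
      · rintro ⟨y, ⟨hy, hx⟩, rfl⟩
        exact ⟨⟨y, hy, rfl⟩, hx⟩
    rw [hU, e, Finset.card_map, h0]
  · have e : Finset.map v.toEmbedding {i.castSucc, i.succ, j.castSucc, j.succ} ∩ {3, 4, 5} =
        (({i.castSucc, i.succ, j.castSucc, j.succ} : Finset (Fin 7)).filter
          fun k => col (v k) = 1).map v.toEmbedding := by
      ext x
      simp only [Finset.mem_inter, hB, Finset.mem_map, Finset.mem_filter, Equiv.coe_toEmbedding]
      constructor
      · rintro ⟨⟨y, hy, rfl⟩, hx⟩
        exact ⟨y, ⟨hy, hx⟩, rfl⟩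
      · rintro ⟨y, ⟨hy, hx⟩, rfl⟩
        exact ⟨⟨y, hy, rfl⟩, hx⟩
    rw [hU, e, Finset.card_map, h1]

/-- **Main theorem.** For `n = 6` and for `n = 7` there is a family of fewer than `C(n-2, 2)`
four-element sets (of size `5 < 6` and `9 < 10` respectively) with respect to which no Hamilton
path of `K_n` is `(2,2)`-acceptable. In particular the statement of Q1 is false. -/
theorem result :
    (∃ F : Finset (Finset (Fin 6)), (∀ T ∈ F, T.card = 4) ∧ F.card = 5 ∧ F.card < Nat.choose 4 2 ∧
      ∀ v : Equiv.Perm (Fin 6), ¬ Acceptable F v) ∧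
    (∃ F : Finset (Finset (Fin 7)), (∀ T ∈ F, T.card = 4) ∧ F.card = 9 ∧ F.card < Nat.choose 5 2 ∧
      ∀ v : Equiv.Perm (Fin 7), ¬ Acceptable F v) ∧
    ¬ (∀ n : ℕ, 4 ≤ n → ∀ F : Finset (Finset (Fin n)), (∀ T ∈ F, T.card = 4) →
      F.card < Nat.choose (n - 2) 2 → ∃ v : Equiv.Perm (Fin n), Acceptable F v) := by
  have h6 : ∀ T ∈ F6, T.card = 4 := fun T hT => (Finset.mem_powersetCard.1 hT).2
  have h7 : ∀ T ∈ F7, T.card = 4 := fun T hT =>
    (Finset.mem_powersetCard.1 (Finset.mem_filter.1 hT).1).2
  refine ⟨⟨F6, h6, card_F6, ?_, block6⟩, ⟨F7, h7, card_F7, ?_, block7⟩, ?_⟩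
  · rw [card_F6]; decide
  · rw [card_F7]; decide
  · intro h
    obtain ⟨v, hv⟩ := h 6 (by norm_num) F6 h6 (by rw [card_F6]; decide)
    exact block6 v hv

end Pool.Agent.Results.MP_716318_co.SmallBlockers
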